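import Pool.Agent.W719.AX.Stp

/-!
# From the localisation to the expansion
-/

set_option autoImplicit false

namespace Pool.Agent.W21.AX

open Finset Filter Topology Metric
open Pool.Agent.W711.HT hiding XX
open Pool.Agent.W719.AR
open Pool.Agent.W719.AX
open scoped Real

theorem ux_comp {E E' : Type} {Y A : ℕ → E → ℂ} {S : Set E} (h : UX Y A S) (f : E' → E)
    (S' : Set E') (hf : ∀ p ∈ S', f p ∈ S) :
    UX (fun N p => Y N (f p)) (fun k p => A k (f p)) S' := by
  intro K
  obtain ⟨C, hC⟩ := h K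
  exact ⟨C, hC.mono fun N hN p hp => hN _ (hf p hp)⟩

theorem ux_cst {E : Type} (g : E → ℂ) (S : Set E) (B : ℝ) (hB : ∀ p ∈ S, ‖g p‖ ≤ B) :
    UX (fun _ p => g p) (fun k p => if k = 0 then g p else 0) S := by
  intro K
  cases K with
  | zero => exact ⟨B, Eventually.of_forall fun N p hp => by simpa using hB p hp⟩
  | succ K =>
    refine ⟨0, Eventually.of_forall fun N p hp => ?_⟩
    rw [Finset.sum_range_succ']
    simp

theorem ux_small {E : Type} {Y Y' A : ℕ → E → ℂ} {S : Set E} (h : UX Y A S)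
    (he : ∀ K : ℕ, ∃ C : ℝ, ∀ᶠ N : ℕ in atTop, ∀ p ∈ S, ‖Y' N p - Y N p‖ ≤ C / (N : ℝ) ^ K) :
    UX Y' A S := by
  intro K
  obtain ⟨C, hC⟩ := h K
  obtain ⟨C', hC'⟩ := he K
  refine ⟨C' + C, ?_⟩
  filter_upwards [hC, hC'] with N h1 h2 p hp
  have e : Y' N p - ∑ k ∈ range K, A k p / (N : ℂ) ^ k =
      (Y' N p - Y N p) + (Y N p - ∑ k ∈ range K, A k p / (N : ℂ) ^ k) := by ring
  rw [e, add_div]
  exact (norm_add_le _ _).trans (add_le_add (h2 p hp) (h1 p hp))

/-- powers times an exponentially small factor -/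
theorem exp_small (κ : ℝ) (hκ : 0 < κ) (j K : ℕ) :
    ∀ᶠ N : ℕ in atTop, (N : ℝ) ^ j * Real.exp (-(κ * N)) ≤ 1 / (N : ℝ) ^ K := by
  have h := tendsto_rpow_mul_exp_neg_mul_atTop_nhds_zero ((j + K : ℕ) : ℝ) κ hκ
  have h2 := h.comp tendsto_natCast_atTop_atTop
  have h3 : ∀ᶠ N : ℕ in atTop, ((N : ℝ) ^ ((j + K : ℕ) : ℝ)) * Real.exp (-κ * N) < 1 :=
    h2.eventually (gt_mem_nhds one_pos)
  filter_upwards [h3, eventually_ge_atTop 1] with N h4 h5
  have hN : (0 : ℝ) < N := by exact_mod_cast h5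
  rw [Real.rpow_natCast, pow_add] at h4
  rw [le_div_iff₀ (by positivity)]
  have e : -(κ * (N : ℝ)) = -κ * N := by ring
  rw [e]
  nlinarith

theorem locx (hLX : S_LX) (hMUL : S_UXMUL) : S_LOCX := by
  intro ρ₂ τ₂ δ c m a E S X F A k k' σ z V W hδ hc hG hX hF hz hB hk hσ hux hk' hk'0 hcrit hloc
  obtain ⟨B, hB⟩ := hB
  -- the exponent
  set q : E → ℂ → ℂ := fun p u => qq a (fun w => F w + σ w p) (z p + u) - V p with hq
  -- the amplitude
  set H : ℕ → E × ℂ → ℂ := fun N x => (2 * Complex.sin (z x.1 + x.2)) *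
    (((N : ℂ) ^ (2 * m) * (-1) ^ (N * m) * Complex.exp (-(N * F (z x.1 + x.2))) *
      X N (z x.1 + x.2)) * k N (z x.1 + x.2) x.1) with hH
  set R : ℝ := ρ₂ + τ₂ with hR
  have hRc : ∀ w ∈ Rc ρ₂ τ₂, ‖w‖ ≤ R := by
    intro w hw
    have := Complex.norm_le_abs_re_add_abs_im w
    have h1 : |w.re| < ρ₂ := hw.1
    have h2 : |w.im| < τ₂ := hw.2
    linarith
  have hz0 : ∀ p ∈ S, z p ∈ Rc ρ₂ τ₂ := by
    intro p hp
    have := hz p hp 0 (mem_ball_self hδ)
    rwa [add_zero] at this
  -- bounds of the exponent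
  set Q : ℝ := |(a : ℝ)| * R ^ 2 / (4 * π) + R + (B + B) with hQ
  have hqq : ∀ p ∈ S, ∀ w ∈ Rc ρ₂ τ₂, ‖qq a (fun w => F w + σ w p) w‖ ≤ Q := by
    intro p hp w hw
    have h1 := hRc w hw
    have h2 := (hB w hw).1
    have h3 := (hB w hw).2 p hp
    unfold qq
    have e1 : ‖Complex.I * a * w ^ 2 / (4 * π)‖ ≤ |(a : ℝ)| * R ^ 2 / (4 * π) := by
      rw [norm_div, norm_mul, norm_mul, norm_pow, Complex.norm_I, one_mul, Complex.norm_intCast]
      have e2 : ‖(4 * (π : ℂ))‖ = 4 * π := by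
        rw [norm_mul, Complex.norm_real, Real.norm_of_nonneg Real.pi_pos.le]
        norm_num
      rw [e2]
      gcongr
    have e3 : ‖Complex.I * w‖ ≤ R := by
      rw [norm_mul, Complex.norm_I, one_mul]; exact h1
    calc ‖Complex.I * a * w ^ 2 / (4 * π) + Complex.I * w + (F w + σ w p)‖
        ≤ ‖Complex.I * a * w ^ 2 / (4 * π)‖ + ‖Complex.I * w‖ + ‖F w + σ w p‖ := norm_add₃_le
      _ ≤ |(a : ℝ)| * R ^ 2 / (4 * π) + R + (B + B) := by
        gcongr
        exact (norm_add_le _ _).trans (add_le_add h2 h3)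
  have hdq : ∀ p, deriv (q p) = fun u => deriv (qq a (fun w => F w + σ w p)) (z p + u) := by
    intro p
    funext u
    simp only [hq]
    rw [deriv_sub_const, deriv_comp_const_add]
  have hcond : ∀ p ∈ S, DifferentiableOn ℂ (q p) (ball 0 δ) ∧
      (∀ u ∈ ball (0 : ℂ) δ, ‖q p u‖ ≤ 2 * Q) ∧
      q p 0 = 0 ∧ deriv (q p) 0 = 0 ∧ (deriv (deriv (q p)) 0).re ≤ -c := by
    intro p hp
    obtain ⟨-, h2, h3, h4⟩ := hcrit p hp
    refine ⟨?_, ?_, ?_, ?_, ?_⟩
    · have hmaps : Set.MapsTo (fun u : ℂ => z p + u) (ball 0 δ) (Rc ρ₂ τ₂) := fun u hu => hz p hp u hu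
      have hd : DifferentiableOn ℂ (fun u : ℂ => z p + u) (ball 0 δ) :=
        (differentiable_id.const_add (z p)).differentiableOn
      have h5 : DifferentiableOn ℂ (qq a (fun w => F w + σ w p)) (Rc ρ₂ τ₂) := by
        unfold qq
        refine DifferentiableOn.add ?_ (hF.add (hσ p hp))
        exact (((differentiable_id.pow 2).const_mul (Complex.I * a)).div_const _ |>.add
          (differentiable_id.const_mul Complex.I)).differentiableOn
      exact (h5.comp hd hmaps).sub_const _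
    · intro u hu
      simp only [hq]
      have e1 := hqq p hp (z p + u) (hz p hp u hu)
      have e2 := hqq p hp (z p) (hz0 p hp)
      rw [← h2] at e2
      have := norm_sub_le (qq a (fun w => F w + σ w p) (z p + u)) (V p)
      linarith
    · simp only [hq, add_zero]
      rw [← h2, sub_self]
    · rw [hdq]
      simp only [add_zero]
      exact h3
    · rw [hdq]
      have : deriv (fun u => deriv (qq a (fun w => F w + σ w p)) (z p + u)) 0 =
          deriv (deriv (qq a (fun w => F w + σ w p))) (z p + 0) := deriv_comp_const_add _ _ _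
      rw [this, add_zero]
      exact h4
  obtain ⟨δ', hδ', hδδ, hLap⟩ := hLX δ (2 * Q) c hδ hc
  set η : ℝ := min δ' (δ / 2) with hη
  have hη0 : 0 < η := lt_min hδ' (by linarith)
  -- expansion of the amplitude
  have hmem : ∀ x ∈ S ×ˢ ball (0 : ℂ) δ, z x.1 + x.2 ∈ Rc ρ₂ τ₂ := fun x hx => hz x.1 hx.1 x.2 hx.2
  have u1 : UX (fun (_ : ℕ) (x : E × ℂ) => 2 * Complex.sin (z x.1 + x.2))
      (fun n x => if n = 0 then 2 * Complex.sin (z x.1 + x.2) else 0) (S ×ˢ ball (0 : ℂ) δ) := by
    refine ux_cst (fun x : E × ℂ => 2 * Complex.sin (z x.1 + x.2)) _ (2 * Real.exp R)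
      (fun x hx => ?_)
    have h1 := hRc _ (hmem x hx)
    rw [norm_mul]
    have h2 : ‖Complex.sin (z x.1 + x.2)‖ ≤ Real.exp R := by
      have h3 : ‖Complex.sin (z x.1 + x.2)‖ ≤ Real.exp ‖z x.1 + x.2‖ := by
        rw [Complex.sin, norm_div, norm_mul, Complex.norm_I, mul_one]
        have e1 : ‖Complex.exp (-(z x.1 + x.2) * Complex.I)‖ ≤ Real.exp ‖z x.1 + x.2‖ := by
          refine (Complex.norm_exp_le_exp_norm _).trans ?_
          rw [norm_mul, norm_neg, Complex.norm_I, mul_one]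
        have e2 : ‖Complex.exp ((z x.1 + x.2) * Complex.I)‖ ≤ Real.exp ‖z x.1 + x.2‖ := by
          refine (Complex.norm_exp_le_exp_norm _).trans ?_
          rw [norm_mul, Complex.norm_I, mul_one]
        have e3 : ‖(2 : ℂ)‖ = 2 := by norm_num
        rw [e3, div_le_iff₀ (by norm_num)]
        refine (norm_sub_le _ _).trans ?_
        linarith
      exact h3.trans (Real.exp_le_exp.2 h1)
    have e3 : ‖(2 : ℂ)‖ = 2 := by norm_num
    rw [e3]
    linarith
  have u2 := ux_comp hG.ux (fun x : E × ℂ => z x.1 + x.2) (S ×ˢ ball (0 : ℂ) δ) hmem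
  have u3 := ux_comp hux (fun x : E × ℂ => (z x.1 + x.2, x.1)) (S ×ˢ ball (0 : ℂ) δ)
    (fun x hx => ⟨hmem x hx, hx.1⟩)
  have u23 := hMUL _ _ _ _ _ _ u2 u3
  have u123 := hMUL _ _ _ _ _ _ u1 u23
  set h : ℕ → E × ℂ → ℂ := cv (fun n x => if n = 0 then 2 * Complex.sin (z x.1 + x.2) else 0)
    (cv (fun n x => A n (z x.1 + x.2)) (fun n x => k' n (z x.1 + x.2, x.1))) with hh
  have hHh : UX H h (S ×ˢ ball (0 : ℂ) δ) := u123
  have hh0 : ∀ p, h 0 (p, 0) = 2 * Complex.sin (z p) * (A 0 (z p) * k' 0 (z p, p)) := by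
    intro p
    simp [hh, cv]
  have hcont : ∀ᶠ N : ℕ in atTop, ∀ p ∈ S, ContinuousOn (fun u => H N (p, u)) (ball 0 δ) := by
    refine Eventually.of_forall fun N p hp => ?_
    have hmaps : Set.MapsTo (fun u : ℂ => z p + u) (ball 0 δ) (Rc ρ₂ τ₂) := fun u hu => hz p hp u hu
    have hd : ContinuousOn (fun u : ℂ => z p + u) (ball 0 δ) :=
      (continuous_const.add continuous_id).continuousOn
    have c1 : ContinuousOn (fun w : ℂ => (2 * Complex.sin w) *
        (((N : ℂ) ^ (2 * m) * (-1) ^ (N * m) * Complex.exp (-(N * F w)) * X N w) * k N w p))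
        (Rc ρ₂ τ₂) := by
      have hFc := hF.continuousOn
      have hkc := hk N p hp
      have hXc := (hX N).continuous.continuousOn (s := Rc ρ₂ τ₂)
      have hs : ContinuousOn (fun w : ℂ => 2 * Complex.sin w) (Rc ρ₂ τ₂) :=
        (continuous_const.mul Complex.continuous_sin).continuousOn
      refine hs.mul (ContinuousOn.mul (ContinuousOn.mul (ContinuousOn.mul continuousOn_const ?_)
        hXc) hkc)
      exact (continuousOn_const.mul hFc).neg.cexp
    exact c1.comp hd hmaps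
  have hdiff : ∀ n, ∀ p ∈ S, DifferentiableOn ℂ (fun u => h n (p, u)) (ball 0 δ) := by
    intro n p hp
    have hmaps : Set.MapsTo (fun u : ℂ => z p + u) (ball 0 δ) (Rc ρ₂ τ₂) := fun u hu => hz p hp u hu
    have hd : DifferentiableOn ℂ (fun u : ℂ => z p + u) (ball 0 δ) :=
      (differentiable_id.const_add (z p)).differentiableOn
    have d1 : ∀ i : ℕ, DifferentiableOn ℂ
        (fun u : ℂ => (if i = 0 then 2 * Complex.sin (z p + u) else 0 : ℂ)) (ball 0 δ) := by
      intro i
      by_cases hi : i = 0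
      · simp only [hi, if_true]
        exact (Complex.differentiable_sin.differentiableOn.comp hd
          (Set.mapsTo_univ _ _)).const_mul 2
      · simp only [hi, if_false]
        exact differentiableOn_const _
    have d2 : ∀ i : ℕ, DifferentiableOn ℂ (fun u : ℂ => A i (z p + u)) (ball 0 δ) :=
      fun i => (hG.an i).comp hd hmaps
    have d3 : ∀ i : ℕ, DifferentiableOn ℂ (fun u : ℂ => k' i (z p + u, p)) (ball 0 δ) :=
      fun i => (hk' i p hp).comp hd hmaps
    simp only [hh, cv]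
    refine DifferentiableOn.fun_sum fun i _ => (d1 i).mul ?_
    exact DifferentiableOn.fun_sum fun j _ => (d2 j).mul (d3 _)
  obtain ⟨A', hA', hA'0⟩ := hLap η hη0 (min_le_left _ _) E S q H h hcond hcont hdiff hHh
  obtain ⟨κ', hκ', hW⟩ := hloc η hη0 (min_le_right _ _)
  refine ⟨A', ux_small hA' (fun K => ⟨1, ?_⟩), ?_⟩
  · filter_upwards [hW, exp_small κ' hκ' (2 * m + 1) K, eventually_ge_atTop 1] with N h1 h2 h3 p hp
    have hN1 : (1 : ℝ) ≤ N := by exact_mod_cast h3
    -- the integrands agree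
    have e1 : (Real.sqrt N : ℂ) * ∫ x in (-η)..η, Complex.exp (N * q p x) * H N (p, x) =
        (N : ℂ) ^ (2 * m) * (Real.sqrt N : ℂ) * (-1) ^ (N * (m + 1)) *
          Complex.exp (-(N * V p)) * ∫ x in (-η)..η, ig a N (z p + x) *
            (X N (z p + x) * (Complex.exp (N * σ (z p + x) p) * k N (z p + x) p)) := by
      have e2 : (N : ℂ) ^ (2 * m) * (Real.sqrt N : ℂ) * (-1) ^ (N * (m + 1)) *
          Complex.exp (-(N * V p)) = (Real.sqrt N : ℂ) * ((N : ℂ) ^ (2 * m) *
            (-1) ^ (N * (m + 1)) * Complex.exp (-(N * V p))) := by ring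
      rw [e2, mul_assoc (Real.sqrt N : ℂ)]
      congr 1
      rw [← intervalIntegral.integral_const_mul]
      apply intervalIntegral.integral_congr
      intro x _
      simp only [hH, hq, ig, Ea, qq]
      set w : ℂ := z p + x with hw
      have e3 : Complex.exp (N * (Complex.I * a * w ^ 2 / (4 * π) + Complex.I * w +
          (F w + σ w p) - V p)) = Complex.exp (-(N * V p)) * Complex.exp (Complex.I * N * w) *
            Complex.exp (Complex.I * a * N * w ^ 2 / (4 * π)) * Complex.exp (N * σ w p) *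
            Complex.exp (N * F w) := by
        rw [← Complex.exp_add, ← Complex.exp_add, ← Complex.exp_add, ← Complex.exp_add]
        congr 1
        ring
      have e4 : Complex.exp (N * F w) * Complex.exp (-(N * F w)) = 1 := by
        rw [← Complex.exp_add, add_neg_cancel, Complex.exp_zero]
      have e5 : ((-1 : ℂ)) ^ (N * (m + 1)) * (-1) ^ N = (-1) ^ (N * m) := by
        rw [Nat.mul_add, mul_one, pow_add, mul_assoc, ← pow_add, ← two_mul, pow_mul]
        norm_num
      rw [e3]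
      calc _ = (N : ℂ) ^ (2 * m) * (-1) ^ (N * m) * Complex.exp (-(N * V p)) *
            (2 * Complex.sin w * Complex.exp (Complex.I * N * w) *
              Complex.exp (Complex.I * a * N * w ^ 2 / (4 * π)) * (X N w *
              (Complex.exp (N * σ w p) * k N w p))) *
              (Complex.exp (N * F w) * Complex.exp (-(N * F w))) := by ring
        _ = _ := by
          rw [e4, mul_one, ← e5]
          ring
    rw [e1, ← mul_sub, norm_mul]
    have e6 := h1 p hp
    have e7 : ‖(N : ℂ) ^ (2 * m) * (Real.sqrt N : ℂ) * (-1) ^ (N * (m + 1)) *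
        Complex.exp (-(N * V p))‖ = (N : ℝ) ^ (2 * m) * Real.sqrt N *
          Real.exp (-(N * (V p).re)) := by
      rw [norm_mul, norm_mul, norm_mul, norm_pow, norm_pow, norm_neg, norm_one, one_pow, mul_one,
        Complex.norm_natCast, Complex.norm_real, Real.norm_of_nonneg (Real.sqrt_nonneg _),
        Complex.norm_exp]
      congr 2
      simp
    rw [e7]
    have e8 : Real.sqrt N ≤ N := by
      rw [Real.sqrt_le_left (by positivity)]
      nlinarith
    calc (N : ℝ) ^ (2 * m) * Real.sqrt N * Real.exp (-(N * (V p).re)) * _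
        ≤ (N : ℝ) ^ (2 * m) * N * Real.exp (-(N * (V p).re)) *
          Real.exp (N * ((V p).re - κ')) := by
          gcongr
      _ = (N : ℝ) ^ (2 * m + 1) * Real.exp (-(κ' * N)) := by
          rw [mul_assoc, ← Real.exp_add, pow_succ]
          congr 2
          ring
      _ ≤ 1 / (N : ℝ) ^ K := h2
  · intro p hp
    rw [hA'0 p hp, hh0 p]
    obtain ⟨h1, -, -, -⟩ := hcrit p hp
    have h4 := (hcond p hp).2.2.2.2
    refine mul_ne_zero (mul_ne_zero (mul_ne_zero two_ne_zero h1)
      (mul_ne_zero (hG.nz _ (hz0 p hp)) (hk'0 _ ⟨hz0 p hp, hp⟩))) ?_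
    rw [Ne, Complex.cpow_eq_zero_iff]
    rintro ⟨h5, -⟩
    have h6 : deriv (deriv (q p)) 0 ≠ 0 := by
      intro h7
      rw [h7] at h4
      simp at h4
      linarith
    have h8 : (2 * (π : ℂ)) ≠ 0 := by
      have := Complex.ofReal_ne_zero.2 Real.pi_ne_zero
      exact mul_ne_zero two_ne_zero this
    exact (div_ne_zero h8 (neg_ne_zero.2 h6)) h5

end Pool.Agent.W21.AX
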